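import Pool.Agent.Y234.GS.StmA

/-!
# Project GS: the Dedekind domain argument (`S_DEDE`)
-/

set_option autoImplicit false

namespace Pool.Agent.Y925.GS

open MvPolynomial Pool.Agent.Y234.GS

private lemma aeval_scale {k A ι : Type} [CommRing k] [CommRing A] [Algebra k A] [Fintype ι]
    (c : A) (x : ι → A) {m : ℕ} {G : MvPolynomial ι k} (hG : G.IsHomogeneous m) :
    aeval (fun i => c * x i) G = c ^ m * aeval x G := by
  rw [aeval_def, aeval_def, eval₂_eq', eval₂_eq', Finset.mul_sum]
  refine Finset.sum_congr rfl fun d hd => ?_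
  have h1 : ∑ i, d i = m := by
    have := hG (mem_support_iff.mp hd)
    rw [← this]
    simp [Finsupp.weight_apply, Finsupp.sum_fintype]
  simp only [mul_pow]
  rw [Finset.prod_mul_distrib, Finset.prod_pow_eq_pow_sum, h1]
  ring

private lemma nullst {k κ ι : Type} [Field k] [IsAlgClosed k] [Fintype ι] [CommRing κ]
    [Nontrivial κ] [Algebra k κ] (z : ι → κ) :
    ∃ y : ι → k, ∀ p : MvPolynomial ι k, aeval z p = 0 → eval y p = 0 := by
  have hne : RingHom.ker (aeval z : MvPolynomial ι k →ₐ[k] κ) ≠ ⊤ := RingHom.ker_ne_top _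
  obtain ⟨M, hM, hle⟩ := Ideal.exists_le_maximal _ hne
  obtain ⟨y, hy⟩ := isMaximal_iff_eq_vanishingIdeal_singleton.mp hM
  refine ⟨y, fun p hp => ?_⟩
  have h1 : p ∈ M := hle (by simpa [RingHom.mem_ker] using hp)
  rw [hy, mem_vanishingIdeal_singleton_iff] at h1
  simpa [coe_aeval_eq_eval] using h1

/-- Every element of `L1` becomes integral after multiplication by a power of `t`. -/
private lemma clear {Dv Q L1 : Type} [CommRing Dv] [IsDomain Dv]
    [IsDiscreteValuationRing Dv] [Field Q] [Field L1] [Algebra Dv Q]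
    [IsFractionRing Dv Q] [Algebra Q L1] [Algebra Dv L1] [IsScalarTower Dv Q L1]
    [FiniteDimensional Q L1] (t : Dv) (ht : Irreducible t) (a : L1) :
    ∃ C : ℕ, IsIntegral Dv (algebraMap Dv L1 t ^ C * a) := by
  have halg : Algebra.IsAlgebraic Dv L1 :=
    (IsFractionRing.comap_isAlgebraic_iff (A := Dv) (K := Q) (C := L1)).mpr inferInstance
  obtain ⟨b, hb, hi⟩ := (halg.isAlgebraic a).exists_integral_multiple
  obtain ⟨C, u, hu⟩ := IsDiscreteValuationRing.eq_unit_mul_pow_irreducible hb ht
  refine ⟨C, ?_⟩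
  have h2 : algebraMap Dv L1 t ^ C * a = (↑u⁻¹ : Dv) • (b • a) := by
    rw [hu, Algebra.smul_def, Algebra.smul_def, map_mul, map_pow, ← mul_assoc, ← mul_assoc,
      ← map_mul, Units.inv_mul, map_one, one_mul]
  rw [h2]
  exact hi.smul _

/-- The values of a linear form on the integral closure have bounded denominators. -/
private lemma bdd {Dv Q L1 : Type} [CommRing Dv] [IsDomain Dv]
    [IsDiscreteValuationRing Dv] [Field Q] [Field L1] [Algebra Dv Q]
    [IsFractionRing Dv Q] [Algebra Q L1] [Algebra Dv L1] [IsScalarTower Dv Q L1]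
    [Module.Finite Dv (integralClosure Dv L1)] (t : Dv) (ht : Irreducible t)
    (Φ : L1 →ₗ[Dv] L1) (hΦ : ∀ z, Φ z ∈ Set.range (algebraMap Q L1)) :
    ∃ N : ℕ, ∀ z : L1, IsIntegral Dv z → ∃ z' : Dv, algebraMap Dv L1 t ^ N * Φ z
      = algebraMap Dv L1 z' := by
  classical
  have hone : ∀ z : L1, ∃ N : ℕ, ∃ z' : Dv, algebraMap Dv L1 t ^ N * Φ z = algebraMap Dv L1 z' := by
    intro z
    obtain ⟨q, hq⟩ := hΦ z
    obtain ⟨a, b, hb, rfl⟩ := IsFractionRing.div_surjective (A := Dv) q
    have hb0 : b ≠ 0 := nonZeroDivisors.ne_zero hb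
    obtain ⟨C, u, hu⟩ := IsDiscreteValuationRing.eq_unit_mul_pow_irreducible hb0 ht
    refine ⟨C, (↑u⁻¹ : Dv) * a, ?_⟩
    have hbL : algebraMap Dv L1 b ≠ 0 := by
      rw [IsScalarTower.algebraMap_apply Dv Q L1]
      rw [Ne, map_eq_zero]
      exact fun h => hb0 ((IsFractionRing.to_map_eq_zero_iff).mp h)
    rw [← hq, map_div₀, ← IsScalarTower.algebraMap_apply, ← IsScalarTower.algebraMap_apply,
      mul_div_assoc', div_eq_iff hbL]
    rw [← map_pow, ← map_mul, ← map_mul]
    congr 1
    rw [hu]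
    have : (↑u⁻¹ : Dv) * ↑u = 1 := Units.inv_mul u
    linear_combination (-(a * t ^ C)) * this
  choose N hN using hone
  obtain ⟨T, hT⟩ := (Module.Finite.fg_top : (⊤ : Submodule Dv (integralClosure Dv L1)).FG)
  refine ⟨T.sup (fun g => N (g : L1)), ?_⟩
  set N0 := T.sup (fun g => N (g : L1)) with hN0
  let P : Submodule Dv (integralClosure Dv L1) :=
    Submodule.comap (((t ^ N0) • Φ) ∘ₗ (integralClosure Dv L1).val.toLinearMap)
      (LinearMap.range (Algebra.linearMap Dv L1))
  have hP : (⊤ : Submodule Dv (integralClosure Dv L1)) ≤ P := by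
    rw [← hT, Submodule.span_le]
    intro g hg
    obtain ⟨z', hz'⟩ := hN (g : L1)
    have hle : N (g : L1) ≤ N0 := Finset.le_sup (f := fun g : integralClosure Dv L1 => N (g : L1)) hg
    refine Submodule.mem_comap.mpr ?_
    refine ⟨t ^ (N0 - N (g : L1)) * z', ?_⟩
    simp only [Algebra.linearMap_apply, LinearMap.comp_apply, LinearMap.smul_apply,
      AlgHom.toLinearMap_apply, Subalgebra.coe_val]
    rw [Algebra.smul_def, map_mul, ← hz', map_pow, map_pow, ← mul_assoc, ← pow_add,
      Nat.sub_add_cancel hle]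
  intro z hz
  have h1 : (⟨z, hz⟩ : integralClosure Dv L1) ∈ P := hP trivial
  obtain ⟨z', hz'⟩ := Submodule.mem_comap.mp h1
  refine ⟨z', ?_⟩
  rw [Algebra.linearMap_apply] at hz'
  rw [hz']
  simp only [LinearMap.comp_apply, LinearMap.smul_apply, AlgHom.toLinearMap_apply,
    Subalgebra.coe_val]
  rw [Algebra.smul_def, map_pow]

theorem dede : S_DEDE := by
  intro k Dv Q L1 ι _ _ _ _ _ _ _ _ _ _ _ _ _ _ _ _ _ _ t x w ψ v n d φ Φ ht hw hint hψ hcop
    hφ hΦ hyp
  classical
  have : FaithfulSMul Dv L1 := by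
    rw [faithfulSMul_iff_algebraMap_injective, IsScalarTower.algebraMap_eq Dv Q L1]
    exact (algebraMap Q L1).injective.comp (IsFractionRing.injective Dv Q)
  have hFR : IsFractionRing (integralClosure Dv L1) L1 :=
    integralClosure.isFractionRing_of_finite_extension Q L1
  have hDed : IsDedekindDomain (integralClosure Dv L1) :=
    integralClosure.isDedekindDomain Dv Q L1
  have hFin : Module.Finite Dv (integralClosure Dv L1) :=
    IsIntegralClosure.finite Dv Q L1 (integralClosure Dv L1)
  have ht0 : t ≠ 0 := ht.ne_zero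
  have htL : algebraMap Dv L1 t ≠ 0 := by
    rwa [Ne, FaithfulSMul.algebraMap_eq_zero_iff]
  -- maximal ideals
  have hmax : ∀ M : Ideal (integralClosure Dv L1), M.IsMaximal → ∀ a : Dv,
      algebraMap Dv (integralClosure Dv L1) a ∈ M ↔ t ∣ a := by
    intro M hM a
    have h1 : (M.comap (algebraMap Dv (integralClosure Dv L1))).IsMaximal :=
      Ideal.isMaximal_comap_of_isIntegral_of_isMaximal M
    have h2 := IsLocalRing.eq_maximalIdeal h1
    rw [← Ideal.mem_comap, h2, ht.maximalIdeal_eq, Ideal.mem_span_singleton]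
  have htS : ∀ M : Ideal (integralClosure Dv L1), M.IsMaximal →
      algebraMap Dv (integralClosure Dv L1) t ∈ M := fun M hM => (hmax M hM t).mpr dvd_rfl
  have htS0 : algebraMap Dv (integralClosure Dv L1) t ≠ 0 := by
    intro h
    apply htL
    rw [IsScalarTower.algebraMap_apply Dv (integralClosure Dv L1) L1, h, map_zero]
  -- principal ideal ring
  have hPID : IsPrincipalIdealRing (integralClosure Dv L1) := by
    apply IsPrincipalIdealRing.of_finite_maximals
    have hfin := Ideal.finite_factors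
      (I := Ideal.span {algebraMap Dv (integralClosure Dv L1) t})
      (by rw [Ne, Ideal.zero_eq_bot, Ideal.span_singleton_eq_bot]; exact htS0)
    refine (hfin.image (fun v => v.asIdeal)).subset ?_
    intro M hM
    have hM' : M.IsMaximal := hM
    have hMne : M ≠ ⊥ := fun h => htS0 (by simpa [h] using htS M hM')
    refine ⟨⟨M, hM'.isPrime, hMne⟩, ?_, rfl⟩
    simp only [Set.mem_setOf_eq]
    rw [Ideal.dvd_span_singleton]
    exact htS M hM'
  -- the elements y
  have hι : Nonempty ι := by
    by_contra hne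
    rw [not_nonempty_iff] at hne
    have h0 := hψ 0
    rw [Finset.univ_eq_empty, Finset.sum_empty, FaithfulSMul.algebraMap_eq_zero_iff] at h0
    have := hcop 1 0 (by rw [h0]; simp)
    exact one_ne_zero this.1
  let yS : ι → integralClosure Dv L1 := fun l => ⟨algebraMap Dv L1 t ^ w l * x l, hint l⟩
  have hyS : ∀ l, algebraMap (integralClosure Dv L1) L1 (yS l) = algebraMap Dv L1 t ^ w l * x l :=
    fun l => rfl
  obtain ⟨r0, hr0⟩ := Finite.exists_min w
  set N : ℕ := ∑ l, w l with hN
  have hwN : ∀ l, w l ≤ N := fun l =>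
    Finset.single_le_sum (f := w) (fun i _ => Nat.zero_le _) (Finset.mem_univ l)
  let gS : ι → integralClosure Dv L1 := fun l =>
    algebraMap Dv (integralClosure Dv L1) t ^ (N - w l) * yS l
  have hgS : ∀ l, algebraMap (integralClosure Dv L1) L1 (gS l) = algebraMap Dv L1 t ^ N * x l := by
    intro l
    simp only [gS]
    rw [map_mul, map_pow, ← IsScalarTower.algebraMap_apply, hyS, ← mul_assoc, ← pow_add,
      Nat.sub_add_cancel (hwN l)]
  obtain ⟨g, hg⟩ := (IsPrincipalIdealRing.principal (Ideal.span (Set.range gS))).principal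
  rw [← Ideal.span] at hg
  have hdvd : ∀ l, ∃ c, gS l = g * c := by
    intro l
    have : gS l ∈ Ideal.span {g} := by
      rw [← hg]
      exact Ideal.subset_span ⟨l, rfl⟩
    exact Ideal.mem_span_singleton.mp this
  choose x' hx' using hdvd
  have hgne : g ≠ 0 := by
    intro h0
    have hx0 : ∀ l, x l = 0 := by
      intro l
      have h1 := hgS l
      rw [hx' l, h0, zero_mul, map_zero] at h1
      rcases mul_eq_zero.mp h1.symm with h | h
      · exact absurd h (pow_ne_zero _ htL)
      · exact h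
    have h0 := hψ 0
    simp only [hx0, mul_zero, smul_zero, Finset.sum_const_zero] at h0
    rw [FaithfulSMul.algebraMap_eq_zero_iff] at h0
    have := hcop 1 0 (by rw [h0]; simp)
    exact one_ne_zero this.1
  have hbez : ∃ s : ι → integralClosure Dv L1, ∑ l, s l * x' l = 1 := by
    have : g ∈ Ideal.span (Set.range gS) := by
      rw [hg]; exact Ideal.mem_span_singleton_self g
    rw [Ideal.mem_span_range_iff_exists_fun] at this
    obtain ⟨s, hs⟩ := this
    refine ⟨s, ?_⟩
    apply mul_left_cancel₀ hgne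
    rw [mul_one, Finset.mul_sum]
    conv_rhs => rw [← hs]
    refine Finset.sum_congr rfl fun l _ => ?_
    rw [hx' l]; ring
  obtain ⟨s, hs⟩ := hbez
  set A := algebraMap (integralClosure Dv L1) L1 with hA
  have hAinj : Function.Injective A := IsFractionRing.injective _ _
  have hgL : A g ≠ 0 := by
    rw [Ne, map_eq_zero_iff A hAinj]; exact hgne
  set η : L1 := A g / algebraMap Dv L1 t ^ N with hη
  have hη0 : η ≠ 0 := div_ne_zero hgL (pow_ne_zero _ htL)
  have hxη : ∀ l, x l = η * A (x' l) := by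
    intro l
    have h1 := hgS l
    rw [hx' l, map_mul] at h1
    rw [hη, div_mul_eq_mul_div, eq_div_iff (pow_ne_zero _ htL), h1]
    ring
  have hAt : ∀ a : Dv, A (algebraMap Dv (integralClosure Dv L1) a) = algebraMap Dv L1 a :=
    fun a => (IsScalarTower.algebraMap_apply Dv (integralClosure Dv L1) L1 a).symm
  -- `x' r0` is in every maximal ideal
  have hx'M : ∀ M : Ideal (integralClosure Dv L1), M.IsMaximal → x' r0 ∈ M := by
    intro M hM
    by_contra hnot
    have hMp := hM.isPrime
    have hyM : ∀ l, l ≠ r0 → yS l ∈ M := by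
      intro l hl
      have hlt : w r0 < w l := lt_of_le_of_ne (hr0 l) (fun h => hl (hw h).symm)
      have h1 : yS l * x' r0 = algebraMap Dv (integralClosure Dv L1) t ^ (w l - w r0) *
          (yS r0 * x' l) := by
        apply hAinj
        rw [map_mul, map_mul, map_mul, map_pow, hAt, hyS, hyS, hxη l, hxη r0]
        have : algebraMap Dv L1 t ^ w l = algebraMap Dv L1 t ^ (w l - w r0) *
            algebraMap Dv L1 t ^ w r0 := by
          rw [← pow_add, Nat.sub_add_cancel hlt.le]
        rw [this]; ring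
      have h2 : yS l * x' r0 ∈ M := by
        rw [h1]
        exact M.mul_mem_right _ (Ideal.pow_mem_of_mem M (htS M hM) _ (Nat.sub_pos_of_lt hlt))
      exact (hMp.mem_or_mem h2).resolve_right hnot
    have hψS : ∀ i, algebraMap Dv (integralClosure Dv L1) (ψ i) = ∑ l, v i l • yS l := by
      intro i
      apply hAinj
      rw [hAt, hψ i, map_sum]
      refine Finset.sum_congr rfl fun l _ => ?_
      rfl
    have hmod : ∀ i, algebraMap Dv (integralClosure Dv L1) (ψ i) - v i r0 • yS r0 ∈ M := by
      intro i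
      rw [hψS i, ← Finset.add_sum_erase _ _ (Finset.mem_univ r0), add_sub_cancel_left]
      refine M.sum_mem fun l hl => ?_
      rw [Algebra.smul_def]
      exact M.mul_mem_left _ (hyM l (Finset.ne_of_mem_erase hl))
    have h3 : algebraMap Dv (integralClosure Dv L1) (v 1 r0 • ψ 0 + (-(v 0 r0)) • ψ 1) ∈ M := by
      have h4 : algebraMap Dv (integralClosure Dv L1) (v 1 r0 • ψ 0 + (-(v 0 r0)) • ψ 1) =
          v 1 r0 • (algebraMap Dv (integralClosure Dv L1) (ψ 0) - v 0 r0 • yS r0) -
          v 0 r0 • (algebraMap Dv (integralClosure Dv L1) (ψ 1) - v 1 r0 • yS r0) := by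
        have e1 : ∀ (c : k) (a : Dv), algebraMap Dv (integralClosure Dv L1) (c • a) =
            c • algebraMap Dv (integralClosure Dv L1) a := by
          intro c a
          rw [Algebra.algebraMap_eq_smul_one, Algebra.algebraMap_eq_smul_one, smul_assoc]
        rw [map_add, e1, e1, smul_sub, smul_sub, smul_smul, smul_smul, mul_comm (v 0 r0) (v 1 r0),
          neg_smul]
        abel
      rw [h4]
      refine M.sub_mem ?_ ?_
      · rw [Algebra.smul_def]; exact M.mul_mem_left _ (hmod 0)
      · rw [Algebra.smul_def]; exact M.mul_mem_left _ (hmod 1)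
    rw [hmax M hM] at h3
    obtain ⟨h5, h6⟩ := hcop _ _ h3
    have h7 : v 0 r0 = 0 := neg_eq_zero.mp h6
    have h8 := hmod 0
    rw [h7, zero_smul, sub_zero, hmax M hM] at h8
    have := hcop 1 0 (by simpa using h8)
    exact one_ne_zero this.1
  obtain ⟨c, hc⟩ : ∃ c : ℕ, ∃ b, x' r0 ^ c = algebraMap Dv (integralClosure Dv L1) t * b := by
    have h1 : x' r0 ∈ (Ideal.span {algebraMap Dv (integralClosure Dv L1) t}).radical := by
      rw [Ideal.radical_eq_sInf, Ideal.mem_sInf]
      intro J hJ
      obtain ⟨hJ1, hJ2⟩ := hJ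
      have hJne : J ≠ ⊥ := by
        intro h
        rw [h] at hJ1
        exact htS0 (by simpa using hJ1)
      exact hx'M J (hJ2.isMaximal hJne)
    obtain ⟨c, hc⟩ := h1
    exact ⟨c, Ideal.mem_span_singleton.mp hc⟩
  obtain ⟨b, hb⟩ := hc
  -- constants
  have hCC : ∃ C : ℕ, ∀ s : Fin n, ∃ a : integralClosure Dv L1,
      algebraMap Dv L1 t ^ C * η ^ (-(d s)) = A a := by
    have h1 : ∀ s : Fin n, ∃ C : ℕ, IsIntegral Dv (algebraMap Dv L1 t ^ C * η ^ (-(d s))) :=
      fun s => clear (Q := Q) t ht _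
    choose C hC using h1
    refine ⟨∑ s, C s, fun s => ?_⟩
    have hle : C s ≤ ∑ s, C s :=
      Finset.single_le_sum (f := C) (fun i _ => Nat.zero_le _) (Finset.mem_univ s)
    refine ⟨algebraMap Dv (integralClosure Dv L1) t ^ (∑ s, C s - C s) * ⟨_, hC s⟩, ?_⟩
    rw [map_mul, map_pow, hAt]
    change _ = algebraMap Dv L1 t ^ (∑ s, C s - C s) * (algebraMap Dv L1 t ^ C s * η ^ (-(d s)))
    rw [← mul_assoc, ← pow_add, Nat.sub_add_cancel hle]
  obtain ⟨C, hC⟩ := hCC
  have hNN : ∃ N0 : ℕ, ∀ s : Fin n, ∀ a : integralClosure Dv L1, ∃ z' : Dv,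
      algebraMap Dv L1 t ^ N0 * Φ s (A a) = algebraMap Dv L1 z' := by
    have h1 : ∀ s : Fin n, ∃ N : ℕ, ∀ z : L1, IsIntegral Dv z → ∃ z' : Dv,
        algebraMap Dv L1 t ^ N * Φ s z = algebraMap Dv L1 z' :=
      fun s => bdd (Q := Q) t ht (Φ s) (hΦ s)
    choose N1 hN1 using h1
    refine ⟨∑ s, N1 s, fun s a => ?_⟩
    have hle : N1 s ≤ ∑ s, N1 s :=
      Finset.single_le_sum (f := N1) (fun i _ => Nat.zero_le _) (Finset.mem_univ s)
    obtain ⟨z', hz'⟩ := hN1 s (A a) a.2
    refine ⟨t ^ (∑ s, N1 s - N1 s) * z', ?_⟩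
    rw [map_mul, ← hz', map_pow, ← mul_assoc, ← pow_add, Nat.sub_add_cancel hle]
  obtain ⟨N0, hN0⟩ := hNN
  -- the ideal J
  let J : Ideal (integralClosure Dv L1) :=
    { carrier := {u | ∀ z : integralClosure Dv L1, ∃ z' : Dv,
        φ (A (u * z)) = algebraMap Dv L1 (t * z')}
      add_mem' := by
        intro a b' ha hb' z
        obtain ⟨z1, h1⟩ := ha z
        obtain ⟨z2, h2⟩ := hb' z
        refine ⟨z1 + z2, ?_⟩
        rw [add_mul, map_add, map_add, h1, h2, mul_add, map_add]
      zero_mem' := by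
        intro z
        exact ⟨0, by simp⟩
      smul_mem' := by
        intro a u hu z
        obtain ⟨z1, h1⟩ := hu (a * z)
        refine ⟨z1, ?_⟩
        rw [← h1, smul_eq_mul]
        congr 2
        ring }
  have hJ : J = ⊤ := by
    by_contra hJne
    obtain ⟨M, hM, hJM⟩ := Ideal.exists_le_maximal J hJne
    have hMp := hM.isPrime
    obtain ⟨l1, hl1⟩ : ∃ l1, x' l1 ∉ M := by
      by_contra hall
      push Not at hall
      have : (1 : integralClosure Dv L1) ∈ M := by
        rw [← hs]
        exact M.sum_mem fun l _ => M.mul_mem_left _ (hall l)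
      exact hMp.ne_top ((Ideal.eq_top_iff_one M).mpr this)
    letI : Field (integralClosure Dv L1 ⧸ M) := Ideal.Quotient.field M
    let pr := Ideal.Quotient.mkₐ k M
    have hpr : ∀ a, pr a = 0 ↔ a ∈ M := fun a => Ideal.Quotient.eq_zero_iff_mem
    have hpr1 : pr (x' l1) ≠ 0 := by rwa [Ne, hpr]
    let zz : ι → (integralClosure Dv L1 ⧸ M) := fun l => (pr (x' l1))⁻¹ * pr (x' l)
    obtain ⟨y, hy⟩ := nullst (k := k) zz
    have hhom : ∀ (e : ℕ) (G : MvPolynomial ι k), G.IsHomogeneous e →
        aeval x G = η ^ e * A (aeval x' G) := by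
      intro e G hG
      have h1 : aeval x G = aeval (fun l => η * A (x' l)) G := by
        congr 2
        funext l
        exact hxη l
      rw [h1, aeval_scale η (fun l => A (x' l)) hG]
      congr 1
      exact aeval_algebraMap_apply L1 x' G
    have hhomM : ∀ (e : ℕ) (G : MvPolynomial ι k), G.IsHomogeneous e →
        aeval x' G ∈ M → eval y G = 0 := by
      intro e G hG hGM
      apply hy
      have h1 := aeval_scale (pr (x' l1))⁻¹ (fun l => pr (x' l)) hG
      rw [h1]
      have h2 : aeval (fun l => pr (x' l)) G = pr (aeval x' G) := by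
        rw [← MvPolynomial.comp_aeval_apply]
      rw [h2, (hpr _).mpr hGM, mul_zero]
    have hpt : IsPt k x y := by
      refine ⟨?_, ?_⟩
      · intro hy0
        have h1 : eval y (X l1 - MvPolynomial.C 1) = 0 := by
          apply hy
          rw [map_sub, aeval_X, map_one, map_one, sub_eq_zero]
          exact inv_mul_cancel₀ hpr1
        rw [hy0] at h1
        simp at h1
      · intro e G hG hG0
        apply hhomM e G hG
        rw [hhom e G hG] at hG0
        have : A (aeval x' G) = 0 := (mul_eq_zero.mp hG0).resolve_left (pow_ne_zero _ hη0)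
        rw [map_eq_zero_iff A hAinj] at this
        rw [this]
        exact M.zero_mem
    obtain ⟨q, m, G, B, hq, hGh, hGy, hB, himp⟩ := hyp r0 (c * (C + N0 + 1)) y hpt
    have hu : aeval x' G ∉ M := fun h => hGy (hhomM m G hGh h)
    apply hu
    apply hJM
    intro z
    have hfin := himp (η ^ (-(m : ℤ)) * A z) ?_
    · obtain ⟨z', hz'⟩ := hfin
      refine ⟨z', ?_⟩
      rw [← hz', hhom m G hGh, map_mul]
      congr 1
      rw [zpow_neg, zpow_natCast]
      have : η ^ m ≠ 0 := pow_ne_zero _ hη0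
      field_simp
    · -- the sum
      have hterm : ∀ s : Fin n, ∃ z1 : Dv, Φ s (aeval x (B s) * x r0 ^ (c * (C + N0 + 1)) *
          (η ^ (-(m : ℤ)) * A z) ^ q) = algebraMap Dv L1 (t * z1) := by
        intro s
        rcases hB s with hB0 | ⟨e, he, hdeg⟩
        · refine ⟨0, ?_⟩
          rw [hB0]; simp
        · obtain ⟨a, ha⟩ := hC s
          have h1 : aeval x (B s) * x r0 ^ (c * (C + N0 + 1)) * (η ^ (-(m : ℤ)) * A z) ^ q =
              (t ^ (N0 + 1)) • A (a * aeval x' (B s) * b ^ (C + N0 + 1) * z ^ q) := by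
            have hpw : A (x' r0) ^ (c * (C + N0 + 1)) =
                algebraMap Dv L1 t ^ (C + N0 + 1) * A b ^ (C + N0 + 1) := by
              rw [pow_mul, ← map_pow, hb, map_mul, hAt, mul_pow]
            have hexp : η ^ e * η ^ (c * (C + N0 + 1)) * (η ^ (-(m : ℤ))) ^ q = η ^ (-(d s)) := by
              rw [← zpow_natCast η e, ← zpow_natCast η (c * (C + N0 + 1)),
                ← zpow_natCast (η ^ (-(m : ℤ))) q, ← zpow_mul, ← zpow_add₀ hη0,
                ← zpow_add₀ hη0]
              congr 1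
              linarith
            calc aeval x (B s) * x r0 ^ (c * (C + N0 + 1)) * (η ^ (-(m : ℤ)) * A z) ^ q
                = (η ^ e * η ^ (c * (C + N0 + 1)) * (η ^ (-(m : ℤ))) ^ q) * A (aeval x' (B s)) *
                    A (x' r0) ^ (c * (C + N0 + 1)) * A z ^ q := by
                  rw [hhom e (B s) he, hxη r0, mul_pow, mul_pow]
                  ring
              _ = (t ^ (N0 + 1)) • A (a * aeval x' (B s) * b ^ (C + N0 + 1) * z ^ q) := by
                  rw [hexp, hpw, map_mul, map_mul, map_mul, map_pow, map_pow, ← ha,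
                    Algebra.smul_def, map_pow]
                  ring
          obtain ⟨z', hz'⟩ := hN0 s (a * aeval x' (B s) * b ^ (C + N0 + 1) * z ^ q)
          refine ⟨z', ?_⟩
          rw [h1, map_smul, Algebra.smul_def, map_mul (algebraMap Dv L1) t z', ← hz', map_pow]
          ring
      choose z1 hz1 using hterm
      refine ⟨∑ s, z1 s, ?_⟩
      rw [Finset.sum_congr rfl (fun s _ => hz1 s), ← map_sum, Finset.mul_sum]
  -- conclusion
  intro z hz
  have h1 : (1 : integralClosure Dv L1) ∈ J := by rw [hJ]; trivial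
  obtain ⟨z', hz'⟩ := h1 ⟨z, hz⟩
  refine ⟨z', ?_⟩
  rw [← hz', one_mul]
  rfl

end Pool.Agent.Y925.GS
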