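import Pool.Agent.Y234.GS.StmC

/-!
# Project GS: the structure of smooth algebras over a field (`S_SMI`)
-/

set_option autoImplicit false

namespace Pool.Agent.Y925.GS

open Pool.Agent.Y234.GS TensorProduct

/-- annihilators in reduced artinian rings -/
private lemma ann_artin {T : Type} [CommRing T] [IsReduced T] [IsArtinianRing T] (z : T) :
    ∃ e : T, e * e = e ∧ e * z = 0 ∧ ∀ b, b * z = 0 → b = b * e := by
  obtain ⟨n, y, hy⟩ := IsArtinian.exists_pow_succ_smul_dvd z (1 : T)
  have h1 : (z * (1 - z * y)) ^ (n + 1) = 0 := by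
    have h2 : z ^ (n + 1) * (1 - z * y) = 0 := by
      simp only [smul_eq_mul, mul_one, Nat.succ_eq_add_one] at hy
      calc z ^ (n + 1) * (1 - z * y) = z * (z ^ n - z ^ (n + 1) * y) := by ring
        _ = 0 := by rw [hy, sub_self, mul_zero]
    calc (z * (1 - z * y)) ^ (n + 1) = z ^ (n + 1) * (1 - z * y) * (1 - z * y) ^ n := by
          rw [mul_pow, pow_succ (1 - z * y)]
          ring
      _ = 0 := by rw [h2, zero_mul]
  have h3 : z * (1 - z * y) = 0 := pow_eq_zero_iff (Nat.succ_ne_zero n) |>.mp h1
  refine ⟨1 - z * y, ?_, ?_, ?_⟩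
  · linear_combination (-y) * h3
  · linear_combination h3
  · intro b hb
    linear_combination y * hb

/-- the local case -/
private lemma loc {k S : Type} [Field k] [CommRing S] (n : ℕ)
    [Algebra (MvPolynomial (Fin n) k) S] [Algebra.IsStandardEtale (MvPolynomial (Fin n) k) S] :
    IsReduced S ∧ ∀ z : S, ∃ e : S, e * z = 0 ∧ ∀ b, b * z = 0 → b = b * e := by
  set P := MvPolynomial (Fin n) k with hP
  have hEt : Algebra.Etale P S := inferInstance
  have hfl : Module.Flat P S := inferInstance
  let F := FractionRing P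
  have hEt' : Algebra.Etale F (F ⊗[P] S) := inferInstance
  have hred' : IsReduced (F ⊗[P] S) := Algebra.FormallyUnramified.isReduced_of_field F _
  have hfin' : Module.Finite F (F ⊗[P] S) := Algebra.FormallyUnramified.finite_of_free F _
  have hart' : IsArtinianRing (F ⊗[P] S) := isArtinian_of_tower F inferInstance
  let c : (S ⊗[P] F) ≃ₐ[P] (F ⊗[P] S) := Algebra.TensorProduct.comm P S F
  have hred : IsReduced (S ⊗[P] F) := isReduced_of_injective c c.injective
  have hart : IsArtinianRing (S ⊗[P] F) :=
    Function.Surjective.isArtinianRing (f := (c.symm : (F ⊗[P] S) →+* (S ⊗[P] F)))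
      c.symm.surjective
  have hinj : Function.Injective (algebraMap S (S ⊗[P] F)) :=
    Algebra.TensorProduct.includeLeft_injective (S := S) (A := S)
      (IsFractionRing.injective P F)
  refine ⟨isReduced_of_injective _ hinj, fun z => ?_⟩
  obtain ⟨e, he, hez, hb⟩ := ann_artin (algebraMap S (S ⊗[P] F) z)
  have hint : IsIntegral S e := by
    refine ⟨Polynomial.X ^ 2 - Polynomial.X, ?_, ?_⟩
    · monicity!
    · simp [pow_two, he]
  obtain ⟨u, hu⟩ := (TensorProduct.toIntegralClosure_bijective_of_smooth (R := P) (S := S)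
    (B := F)).2 ⟨e, hint⟩
  have hrange : ∀ u : S ⊗[P] integralClosure P F, ∃ s : S,
      ((TensorProduct.toIntegralClosure P S F u : integralClosure S (S ⊗[P] F)) : S ⊗[P] F) =
        algebraMap S (S ⊗[P] F) s := by
    intro u
    induction u with
    | zero => exact ⟨0, by simp⟩
    | add x y hx hy =>
      obtain ⟨s, hs⟩ := hx
      obtain ⟨t, ht⟩ := hy
      exact ⟨s + t, by rw [map_add, map_add, ← hs, ← ht]; rfl⟩
    | tmul x y =>
      obtain ⟨p, hp⟩ := IsIntegrallyClosed.isIntegral_iff.mp y.2
      refine ⟨p • x, ?_⟩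
      have h1 : ((TensorProduct.toIntegralClosure P S F (x ⊗ₜ y) :
          integralClosure S (S ⊗[P] F)) : S ⊗[P] F) = x ⊗ₜ[P] (y : F) := rfl
      rw [h1, ← hp, Algebra.TensorProduct.algebraMap_apply, Algebra.algebraMap_self_apply,
        TensorProduct.smul_tmul, Algebra.smul_def, mul_one]
  obtain ⟨s, hs⟩ := hrange u
  rw [hu] at hs
  change e = _ at hs
  subst hs
  refine ⟨s, ?_, ?_⟩
  · apply hinj
    rw [map_mul, map_zero]
    exact hez
  · intro b hbz
    apply hinj
    rw [map_mul]
    apply hb
    rw [← map_mul, hbz, map_zero]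

theorem smi : S_SMI := by
  intro k B _ _ _ _
  have hloc : ∀ m : Ideal B, m.IsMaximal → ∃ f ∉ m, IsReduced (Localization.Away f) ∧
      ∀ z : Localization.Away f, ∃ e : Localization.Away f,
        e * z = 0 ∧ ∀ b, b * z = 0 → b = b * e := by
    intro m hm
    have hmp := hm.isPrime
    obtain ⟨f, hf, n, _, _, _⟩ :=
      Algebra.IsSmoothAt.exists_isStandardEtale_mvPolynomial (R := k) (p := m)
    exact ⟨f, hf, loc (k := k) n⟩
  have hN : IsNoetherianRing B := Algebra.FiniteType.isNoetherianRing k B
  -- reduced
  have hred : IsReduced B := by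
    refine ⟨fun x hx => ?_⟩
    by_contra hx0
    have hne : (Ideal.span {x}).annihilator ≠ ⊤ := by
      intro h
      apply hx0
      have : (1 : B) ∈ (Ideal.span {x}).annihilator := by rw [h]; trivial
      rw [Submodule.mem_annihilator_span_singleton] at this
      simpa using this
    obtain ⟨m, hm, hle⟩ := Ideal.exists_le_maximal _ hne
    obtain ⟨f, hf, hr, -⟩ := hloc m hm
    have h1 : algebraMap B (Localization.Away f) x = 0 := (hx.map (algebraMap B _)).eq_zero
    rw [IsLocalization.map_eq_zero_iff (Submonoid.powers f)] at h1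
    obtain ⟨⟨_, l, rfl⟩, hl⟩ := h1
    have h2 : f ^ l ∈ m := hle (by
      rw [Submodule.mem_annihilator_span_singleton]
      exact hl)
    exact hf (hm.isPrime.mem_of_pow_mem l h2)
  -- annihilators
  have hann : ∀ z : B, ∃ e : B, e * e = e ∧ ∀ b : B, b * z = 0 ↔ ∃ c, b = e * c := by
    intro z
    set I : Ideal B := (Ideal.span {z}).annihilator with hI
    have hmem : ∀ b, b ∈ I ↔ b * z = 0 := by
      intro b
      rw [hI, Submodule.mem_annihilator_span_singleton]
      rfl
    have hidem : IsIdempotentElem I := by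
      apply le_antisymm Ideal.mul_le_right
      intro b hb
      by_contra hbn
      -- the ideal of the denominators
      let J : Ideal B := Submodule.colon (I * I) {b}
      have hJ : ∀ c, c ∈ J ↔ c * b ∈ I * I := by
        intro c
        rw [Submodule.mem_colon_singleton]
        rfl
      have hne : J ≠ ⊤ := by
        intro h
        apply hbn
        have : (1 : B) ∈ J := by rw [h]; trivial
        rw [hJ, one_mul] at this
        exact this
      obtain ⟨m, hm, hle⟩ := Ideal.exists_le_maximal _ hne
      obtain ⟨f, hf, -, ha⟩ := hloc m hm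
      obtain ⟨e, he1, he2⟩ := ha (algebraMap B _ z)
      have hb1 := he2 (algebraMap B _ b) (by
        rw [← map_mul, (hmem b).mp hb, map_zero])
      obtain ⟨⟨a, ⟨_, j, rfl⟩⟩, haj⟩ := IsLocalization.surj (Submonoid.powers f) e
      have haj' : e * algebraMap B (Localization.Away f) (f ^ j) = algebraMap B _ a := haj
      -- `a * z` is killed by a power of `f`
      have h1 : algebraMap B (Localization.Away f) (a * z) = 0 := by
        rw [map_mul, ← haj']
        calc e * algebraMap B (Localization.Away f) (f ^ j) * algebraMap B _ z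
            = algebraMap B (Localization.Away f) (f ^ j) * (e * algebraMap B _ z) := by ring
          _ = 0 := by rw [he1, mul_zero]
      rw [IsLocalization.map_eq_zero_iff (Submonoid.powers f)] at h1
      obtain ⟨⟨_, l, rfl⟩, hl⟩ := h1
      have hl' : f ^ l * (a * z) = 0 := hl
      have ha' : f ^ l * a ∈ I := by
        rw [hmem, mul_assoc]
        exact hl'
      -- `f ^ (l + j) * b = (f ^ l * a) * b` up to a power of `f`
      have h2 : algebraMap B (Localization.Away f) (f ^ l * f ^ j * b) =
          algebraMap B (Localization.Away f) (f ^ l * a * b) := by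
        rw [map_mul, map_mul, map_mul, map_mul, ← haj']
        conv_lhs => rw [hb1]
        ring
      rw [IsLocalization.eq_iff_exists (Submonoid.powers f)] at h2
      obtain ⟨⟨_, r, rfl⟩, hr⟩ := h2
      have hr' : f ^ r * (f ^ l * f ^ j * b) = f ^ r * (f ^ l * a * b) := hr
      have h3 : f ^ (r + l + j) ∈ J := by
        rw [hJ]
        have : f ^ (r + l + j) * b = f ^ r * (f ^ l * a * b) := by
          rw [← hr']; ring
        rw [this]
        exact Ideal.mul_mem_left _ _ (Ideal.mul_mem_mul ha' hb)
      exact hf (hm.isPrime.mem_of_pow_mem _ (hle h3))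
    obtain ⟨e, he, hIe⟩ := (Ideal.isIdempotentElem_iff_of_fg I
      (IsNoetherian.noetherian I)).mp hidem
    refine ⟨e, he, fun b => ?_⟩
    rw [← hmem, hIe, Ideal.mem_span_singleton]
    rfl
  -- minimal primes
  have hmin : ∀ q ∈ minimalPrimes B, ∃ e : B, e * e = e ∧ q = Ideal.span {e} := by
    intro q hq
    have hq' : q ∈ (Submodule.colon (⊥ : Submodule B B) {(1 : B)}).minimalPrimes := by
      have : Submodule.colon (⊥ : Submodule B B) {(1 : B)} = ⊥ := by
        ext b
        rw [Submodule.mem_colon_singleton]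
        simp
      rw [this]
      exact hq
    obtain ⟨x', hx'⟩ := Submodule.exists_eq_colon_of_mem_minimalPrimes hq'
    obtain ⟨e, he, hb⟩ := hann x'
    refine ⟨e, he, ?_⟩
    ext b
    rw [hx', Submodule.mem_colon_singleton, Ideal.mem_span_singleton, Submodule.mem_bot]
    exact hb b
  refine ⟨hred, hann, ?_, ?_⟩
  · intro q1 hq1 q2 hq2 hne
    obtain ⟨e1, he1, h1⟩ := hmin q1 hq1
    have hp2 : q2.IsPrime := hq2.1.1
    have h2 : e1 ∉ q2 := by
      intro h
      apply hne
      have hle : q1 ≤ q2 := by
        rw [h1, Ideal.span_singleton_le_iff_mem]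
        exact h
      exact le_antisymm hle (hq2.2 hq1.1 hle)
    have h3 : 1 - e1 ∈ q2 := by
      have : e1 * (1 - e1) ∈ q2 := by
        have : e1 * (1 - e1) = 0 := by rw [mul_sub, mul_one, he1, sub_self]
        rw [this]
        exact q2.zero_mem
      exact (hp2.mem_or_mem this).resolve_left h2
    rw [Ideal.eq_top_iff_one]
    have h4 : (1 : B) = e1 + (1 - e1) := by ring
    rw [h4]
    exact Ideal.add_mem _ (Ideal.mem_sup_left (by rw [h1]; exact Ideal.mem_span_singleton_self e1))
      (Ideal.mem_sup_right h3)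
  · intro q hq
    obtain ⟨e, he, h1⟩ := hmin q hq
    have he' : IsIdempotentElem (1 - e) := IsIdempotentElem.one_sub he
    have hloc2 : IsLocalization.Away (1 - e) (B ⧸ q) := by
      have := IsLocalization.Away.quotient_of_isIdempotentElem he'
      rw [sub_sub_cancel, ← h1] at this
      exact this
    have hs1 : Algebra.Smooth B (B ⧸ q) := Algebra.Smooth.of_isLocalization_Away (1 - e)
    exact Algebra.Smooth.comp k B (B ⧸ q)

end Pool.Agent.Y925.GS
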